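import Mathlib

/-!
# Coefficientwise domination of polynomials
-/

set_option autoImplicit false

open Polynomial

namespace Q73.PolyDom

/-- coefficientwise domination -/
def Dom (p q : ℝ[X]) : Prop := ∀ k, |p.coeff k| ≤ q.coeff k

lemma dom_mul {p q p' q' : ℝ[X]} (h : Dom p q) (h' : Dom p' q') : Dom (p * p') (q * q') := by
  intro k
  rw [coeff_mul, coeff_mul]
  refine (Finset.abs_sum_le_sum_abs _ _).trans (Finset.sum_le_sum fun x _ => ?_)
  rw [abs_mul]
  exact mul_le_mul (h _) (h' _) (abs_nonneg _) ((abs_nonneg _).trans (h _))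

lemma dom_one : Dom 1 1 := by
  intro k
  rw [coeff_one]
  split_ifs <;> simp

lemma dom_prod {ι : Type*} (s : Finset ι) {p q : ι → ℝ[X]} (h : ∀ i ∈ s, Dom (p i) (q i)) :
    Dom (∏ i ∈ s, p i) (∏ i ∈ s, q i) := by
  classical
  induction s using Finset.induction_on with
  | empty => simpa using dom_one
  | insert a s ha ih =>
    rw [Finset.prod_insert ha, Finset.prod_insert ha]
    exact dom_mul (h a (Finset.mem_insert_self a s))
      (ih fun i hi => h i (Finset.mem_insert_of_mem hi))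

/-- the quadratic `X² + bX + c` -/
noncomputable def quad (c b : ℝ) : ℝ[X] := C c + C b * X + X ^ 2

lemma quad_coeff (c b : ℝ) (k : ℕ) :
    (quad c b).coeff k = if k = 0 then c else if k = 1 then b else if k = 2 then 1 else 0 := by
  unfold quad
  rw [coeff_add, coeff_add, coeff_C, coeff_C_mul, coeff_X, coeff_X_pow]
  rcases k with _ | _ | _ | k
  · simp
  · simp
  · simp
  · simp

lemma dom_quad {c b c' b' : ℝ} (hc : |c| ≤ c') (hb : |b| ≤ b') :
    Dom (quad c b) (quad c' b') := by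
  intro k
  rw [quad_coeff, quad_coeff]
  split_ifs
  · exact hc
  · exact hb
  · simp
  · simp

lemma taylor_factor (x A : ℝ) : taylor x (X ^ 2 - C A) = quad (x ^ 2 - A) (2 * x) := by
  unfold quad
  rw [map_sub, taylor_C, taylor_X_pow]
  simp only [map_sub, map_pow, map_mul, map_ofNat]
  ring

/-- the values of the derivatives are controlled by the Taylor coefficients -/
lemma deriv_le_of_taylor {Q : ℝ[X]} {x : ℝ} {k : ℕ}
    (h : |(taylor x Q).coeff k| ≤ (taylor 1 Q).coeff k) :
    |((derivative^[k]) Q).eval x| ≤ ((derivative^[k]) Q).eval 1 := by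
  rw [taylor_coeff, taylor_coeff] at h
  have e : ∀ y : ℝ, ((derivative^[k]) Q).eval y = (k.factorial : ℝ) * ((hasseDeriv k Q).eval y) := by
    intro y
    rw [← factorial_smul_hasseDeriv]
    simp [eval_smul]
  rw [e, e, abs_mul, abs_of_nonneg (by positivity : (0:ℝ) ≤ (k.factorial : ℝ))]
  exact mul_le_mul_of_nonneg_left h (by positivity)

/-! ### Lists of natural numbers as polynomials -/

/-- sum of coefficient lists -/
def addL : List ℕ → List ℕ → List ℕ
  | [], b => b
  | x :: a, [] => x :: a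
  | x :: a, y :: b => (x + y) :: addL a b

/-- product of a coefficient list and a number -/
def scaleL (c : ℕ) : List ℕ → List ℕ
  | [] => []
  | x :: a => (c * x) :: scaleL c a

/-- product with `c + bX + dX²` -/
def mulQ (c b d : ℕ) (l : List ℕ) : List ℕ :=
  addL (scaleL c l) (0 :: addL (scaleL b l) (0 :: scaleL d l))

/-- `(c + bX + dX²)^n · l` -/
def powQ (c b d : ℕ) : ℕ → List ℕ → List ℕ
  | 0, l => l
  | n + 1, l => mulQ c b d (powQ c b d n l)

/-- termwise comparison -/
def leL : List ℕ → List ℕ → Bool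
  | [], _ => true
  | _ :: _, [] => false
  | x :: a, y :: b => decide (x ≤ y) && leL a b

/-- the polynomial of a list -/
noncomputable def toP : List ℕ → ℝ[X]
  | [] => 0
  | x :: a => C (x : ℝ) + X * toP a

lemma toP_add : ∀ a b : List ℕ, toP (addL a b) = toP a + toP b
  | [], b => by simp [addL, toP]
  | x :: a, [] => by simp [addL, toP]
  | x :: a, y :: b => by
    simp only [addL, toP, toP_add a b, Nat.cast_add, map_add]
    ring

lemma toP_scale (c : ℕ) : ∀ a : List ℕ, toP (scaleL c a) = C (c : ℝ) * toP a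
  | [] => by simp [scaleL, toP]
  | x :: a => by
    simp only [scaleL, toP, toP_scale c a, Nat.cast_mul, map_mul]
    ring

lemma toP_mulQ (c b d : ℕ) (l : List ℕ) :
    toP (mulQ c b d l) = (C (c:ℝ) + C (b:ℝ) * X + C (d:ℝ) * X ^ 2) * toP l := by
  unfold mulQ
  rw [toP_add, toP_scale]
  simp only [toP, toP_add, toP_scale, Nat.cast_zero, map_zero, zero_add]
  ring

lemma toP_powQ (c b d n : ℕ) (l : List ℕ) :
    toP (powQ c b d n l) = (C (c:ℝ) + C (b:ℝ) * X + C (d:ℝ) * X ^ 2) ^ n * toP l := by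
  induction n with
  | zero => simp [powQ]
  | succ n ih => rw [powQ, toP_mulQ, ih]; ring

lemma toP_coeff_zero (x : ℕ) (a : List ℕ) : (toP (x :: a)).coeff 0 = x := by
  simp [toP]

lemma toP_coeff_succ (x : ℕ) (a : List ℕ) (k : ℕ) :
    (toP (x :: a)).coeff (k + 1) = (toP a).coeff k := by
  simp [toP, coeff_C]

lemma toP_coeff_nonneg : ∀ (a : List ℕ) (k : ℕ), 0 ≤ (toP a).coeff k
  | [], k => by simp [toP]
  | x :: a, 0 => by rw [toP_coeff_zero]; positivity
  | x :: a, k + 1 => by rw [toP_coeff_succ]; exact toP_coeff_nonneg a k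

lemma leL_coeff : ∀ (a b : List ℕ), leL a b = true → ∀ k, (toP a).coeff k ≤ (toP b).coeff k
  | [], b, _, k => by simpa [toP] using toP_coeff_nonneg b k
  | x :: a, [], h, _ => by simp [leL] at h
  | x :: a, y :: b, h, 0 => by
    rw [leL, Bool.and_eq_true, decide_eq_true_eq] at h
    rw [toP_coeff_zero, toP_coeff_zero]
    exact_mod_cast h.1
  | x :: a, y :: b, h, k + 1 => by
    rw [leL, Bool.and_eq_true] at h
    rw [toP_coeff_succ, toP_coeff_succ]
    exact leL_coeff a b h.2 k

lemma tail_coeff (a : List ℕ) (k : ℕ) : (toP a).coeff (k + 1) = (toP a.tail).coeff k := by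
  cases a with
  | nil => simp [toP]
  | cons x a => rw [toP_coeff_succ, List.tail_cons]

/-- comparison of `(c₀ + b₀X + dX²)(c + bX + dX²)^n` with `(c₀' + b'X + dX²)(c' + b'X + dX²)^n`
in all positive degrees -/
lemma quad_pow_le {D c₀ b₀ c b c₀' b₀' c' b' n : ℕ} (hD : 0 < D)
    (h : leL (powQ c b D n [c₀, b₀, D]).tail (powQ c' b' D n [c₀', b₀', D]).tail = true) (k : ℕ) :
    (quad ((c₀:ℝ) / D) ((b₀:ℝ) / D) * quad ((c:ℝ) / D) ((b:ℝ) / D) ^ n).coeff (k + 1) ≤
      (quad ((c₀':ℝ) / D) ((b₀':ℝ) / D) * quad ((c':ℝ) / D) ((b':ℝ) / D) ^ n).coeff (k + 1) := by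
  have hDR : (0:ℝ) < D := by exact_mod_cast hD
  have key : ∀ c₀ b₀ c b : ℕ, toP (powQ c b D n [c₀, b₀, D]) =
      C ((D:ℝ) ^ (n + 1)) *
        (quad ((c₀:ℝ) / D) ((b₀:ℝ) / D) * quad ((c:ℝ) / D) ((b:ℝ) / D) ^ n) := by
    intro c₀ b₀ c b
    have e : ∀ c b : ℕ, (C (c:ℝ) + C (b:ℝ) * X + C (D:ℝ) * X ^ 2 : ℝ[X]) =
        C (D:ℝ) * quad ((c:ℝ) / D) ((b:ℝ) / D) := by
      intro c b
      unfold quad
      have h1 : (c:ℝ) = D * (c / D) := by field_simp
      have h2 : (b:ℝ) = D * (b / D) := by field_simp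
      conv_lhs => rw [h1, h2]
      simp only [map_mul]
      ring
    have e2 : toP [c₀, b₀, D] = C (D:ℝ) * quad ((c₀:ℝ) / D) ((b₀:ℝ) / D) := by
      rw [← e]
      simp only [toP]
      ring
    rw [toP_powQ, e, e2, mul_pow, map_pow]
    ring
  have h1 := leL_coeff _ _ h k
  rw [← tail_coeff, ← tail_coeff, key, key, coeff_C_mul, coeff_C_mul] at h1
  exact le_of_mul_le_mul_left h1 (by positivity)

end Q73.PolyDom
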