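import Pool.Agent.Q73.Dom.Basic

/-!
# The polynomial of degree 122
-/

set_option autoImplicit false

open Polynomial

namespace Q73.PolyDom

/-- the squares of the zeros -/
noncomputable def Z (i : ℕ) : ℝ := if i = 0 then 24 / 10000 else 525 / 1000 + i / 1000000

lemma Z_zero : Z 0 = 24 / 10000 := by simp [Z]

lemma Z_succ (i : ℕ) : Z (i + 1) = 525 / 1000 + (i + 1) / 1000000 := by simp [Z]

lemma Z_succ_lo (i : ℕ) : 525 / 1000 ≤ Z (i + 1) := by
  rw [Z_succ]
  have : (0:ℝ) ≤ ((i:ℝ) + 1) / 1000000 := by positivity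
  linarith

lemma Z_succ_hi {i : ℕ} (hi : i < 60) : Z (i + 1) ≤ 52506 / 100000 := by
  rw [Z_succ]
  have : (i:ℝ) + 1 ≤ 60 := by exact_mod_cast hi
  linarith

lemma Z_pos (i : ℕ) : 0 < Z i := by
  rcases i with _ | i
  · rw [Z_zero]; norm_num
  · have := Z_succ_lo i; linarith

lemma Z_lt_one {i : ℕ} (hi : i < 61) : Z i < 1 := by
  rcases i with _ | i
  · rw [Z_zero]; norm_num
  · have := Z_succ_hi (i := i) (by omega); linarith

lemma Z_inj : Function.Injective Z := by
  intro i j h
  rcases i with _ | i <;> rcases j with _ | j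
  · rfl
  · have := Z_succ_lo j; rw [Z_zero] at h; linarith
  · have := Z_succ_lo i; rw [Z_zero] at h; linarith
  · rw [Z_succ, Z_succ] at h
    have : (i:ℝ) = j := by linarith
    have : i = j := by exact_mod_cast this
    rw [this]

/-- the polynomial `∏ (X² - Z_i)` of degree 122 -/
noncomputable def Q : ℝ[X] := ∏ i ∈ Finset.range 61, (X ^ 2 - C (Z i))

lemma taylor_Q (x : ℝ) : taylor x Q = ∏ i ∈ Finset.range 61, quad (x ^ 2 - Z i) (2 * x) := by
  unfold Q
  rw [← taylorAlgHom_apply, map_prod]
  simp only [taylorAlgHom_apply, taylor_factor]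

lemma prod_split (f : ℕ → ℝ[X]) :
    ∏ i ∈ Finset.range 61, f i = f 0 * ∏ i ∈ Finset.range 60, f (i + 1) := by
  rw [Finset.prod_range_succ' f 60, mul_comm]

/-- the lower bound for the Taylor coefficients at `1` -/
lemma dom_one_side : Dom (quad (9976 / 10000) 2 * quad (47494 / 100000) 2 ^ 60) (taylor 1 Q) := by
  have e : (quad (47494 / 100000) 2 ^ 60 : ℝ[X]) =
      ∏ _i ∈ Finset.range 60, quad (47494 / 100000) 2 := by simp
  rw [taylor_Q, prod_split, e]
  apply dom_mul
  · apply dom_quad
    · rw [Z_zero]; norm_num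
    · norm_num
  · apply dom_prod
    intro i hi
    have h1 := Z_succ_hi (i := i) (Finset.mem_range.1 hi)
    apply dom_quad
    · rw [abs_of_pos (by norm_num)]; linarith
    · norm_num

/-- the upper bound for the Taylor coefficients at `x` with `x_a² ≤ x² ≤ x_b²` -/
lemma dom_x_side {x c₀ c b : ℝ} (h1 : |x ^ 2 - Z 0| ≤ c₀) (h2 : 52506 / 100000 - x ^ 2 ≤ c)
    (h3 : x ^ 2 ≤ 525 / 1000) (h4 : |2 * x| ≤ b) :
    Dom (taylor x Q) (quad c₀ b * quad c b ^ 60) := by
  have e : (quad c b ^ 60 : ℝ[X]) = ∏ _i ∈ Finset.range 60, quad c b := by simp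
  rw [taylor_Q, prod_split, e]
  apply dom_mul
  · exact dom_quad h1 h4
  · apply dom_prod
    intro i hi
    have h5 := Z_succ_hi (i := i) (Finset.mem_range.1 hi)
    have h6 := Z_succ_lo i
    apply dom_quad _ h4
    rw [abs_le]
    constructor <;> linarith

/-- away from the origin every factor is dominated -/
lemma dom_outer {x : ℝ} (hx : |x| ≤ 1) (h : 5012 / 100000 ≤ x ^ 2) :
    Dom (taylor x Q) (taylor 1 Q) := by
  have hx2 : x ^ 2 ≤ 1 := by
    rw [← sq_abs]
    have := abs_nonneg x
    nlinarith
  rw [taylor_Q, taylor_Q]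
  apply dom_prod
  intro i hi
  have hi' := Finset.mem_range.1 hi
  apply dom_quad
  · rcases i with _ | i
    · rw [Z_zero, abs_le]; constructor <;> linarith
    · have h5 := Z_succ_hi (i := i) (by omega)
      have h6 := Z_succ_lo i
      rw [abs_le]; constructor <;> linarith
  · rw [abs_mul]; norm_num; exact hx

lemma check1 : leL (powQ 525060 240000 1000000 60 [12000, 240000, 1000000]).tail
    (powQ 474940 2000000 1000000 60 [997600, 2000000, 1000000]).tail = true := by
  decide +kernel

lemma check2 : leL (powQ 510660 450000 1000000 60 [48225, 450000, 1000000]).tail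
    (powQ 474940 2000000 1000000 60 [997600, 2000000, 1000000]).tail = true := by
  decide +kernel

/-- the bound for the derivatives of positive order -/
lemma taylor_le {x : ℝ} (hx : |x| ≤ 1) (k : ℕ) :
    |(taylor x Q).coeff (k + 1)| ≤ (taylor 1 Q).coeff (k + 1) := by
  have hsq : x ^ 2 = |x| ^ 2 := (sq_abs x).symm
  have hx0 := abs_nonneg x
  rcases le_total (5012 / 100000) (x ^ 2) with h | h
  · exact dom_outer hx h (k + 1)
  · have hF := (le_abs_self _).trans (dom_one_side (k + 1))
    rcases le_total |x| (12 / 100) with h1 | h1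
    · have hs : x ^ 2 ≤ 144 / 10000 := by rw [hsq]; nlinarith
      have hs0 : 0 ≤ x ^ 2 := sq_nonneg x
      have h2 := dom_x_side (x := x) (c₀ := 12 / 1000) (c := 52506 / 100000) (b := 24 / 100)
        (by rw [Z_zero, abs_le]; constructor <;> linarith) (by linarith) (by linarith)
        (by rw [abs_mul]; norm_num; linarith) (k + 1)
      have h3 := quad_pow_le (by norm_num) check1 k
      norm_num at h3
      norm_num at h2 hF
      linarith
    · have hs : 144 / 10000 ≤ x ^ 2 := by rw [hsq]; nlinarith
      have hx2 : |x| ≤ 225 / 1000 := by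
        by_contra hcon
        rw [not_le] at hcon
        nlinarith
      have h2 := dom_x_side (x := x) (c₀ := 48225 / 1000000) (c := 51066 / 100000)
        (b := 45 / 100)
        (by rw [Z_zero, abs_le]; constructor <;> nlinarith) (by linarith) (by linarith)
        (by rw [abs_mul]; norm_num; linarith) (k + 1)
      have h3 := quad_pow_le (by norm_num) check2 k
      norm_num at h3
      norm_num at h2 hF
      linarith

end Q73.PolyDom
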