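import Pool.Agent.Q73.Dom.Example

/-!
# The bound for the polynomial itself, and the violation on the vertical lines
-/

set_option autoImplicit false

open Polynomial

namespace Q73.PolyDom

/-- a form of the inequality between the arithmetic and the geometric mean -/
lemma amgm {a b : ℝ} (ha : 0 ≤ a) (hb : 0 < b) (n : ℕ) :
    a * b ^ n ≤ ((a + n * b) / (n + 1)) ^ (n + 1) := by
  have hn : (0:ℝ) < (n:ℝ) + 1 := by positivity
  have h1 := one_add_mul_le_pow (a := (a / b - 1) / (n + 1)) (by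
    rw [le_div_iff₀ hn]
    have : 0 ≤ a / b := by positivity
    have : (0:ℝ) ≤ n := by positivity
    linarith) (n + 1)
  have e1 : (1:ℝ) + ((n + 1 : ℕ) : ℝ) * ((a / b - 1) / (n + 1)) = a / b := by
    push_cast
    field_simp
    ring
  have e2 : b * (1 + (a / b - 1) / (n + 1)) = (a + n * b) / (n + 1) := by
    field_simp
    ring
  rw [e1] at h1
  have h2 : b ^ (n + 1) * (a / b) ≤ b ^ (n + 1) * (1 + (a / b - 1) / (n + 1)) ^ (n + 1) :=
    mul_le_mul_of_nonneg_left h1 (by positivity)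
  rw [← mul_pow, e2] at h2
  calc a * b ^ n = b ^ (n + 1) * (a / b) := by field_simp; ring
    _ ≤ _ := h2

lemma Q_eval (x : ℝ) : Q.eval x = ∏ i ∈ Finset.range 61, (x ^ 2 - Z i) := by
  unfold Q
  rw [eval_prod]
  simp

lemma prod_split' (f : ℕ → ℝ) :
    ∏ i ∈ Finset.range 61, f i = f 0 * ∏ i ∈ Finset.range 60, f (i + 1) := by
  rw [Finset.prod_range_succ' f 60, mul_comm]

lemma Q_one_lower : (9976 / 10000 : ℝ) * (47494 / 100000) ^ 60 ≤ Q.eval 1 := by
  rw [Q_eval, prod_split', Z_zero]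
  have h : (47494 / 100000 : ℝ) ^ 60 ≤ ∏ i ∈ Finset.range 60, ((1:ℝ) ^ 2 - Z (i + 1)) := by
    have e : (47494 / 100000 : ℝ) ^ 60 = ∏ _i ∈ Finset.range 60, (47494 / 100000 : ℝ) := by
      rw [Finset.prod_const, Finset.card_range]
    rw [e]
    apply Finset.prod_le_prod
    · intro i _; norm_num
    · intro i hi
      have := Z_succ_hi (i := i) (Finset.mem_range.1 hi)
      linarith
  have e2 : ((1:ℝ) ^ 2 - 24 / 10000) = 9976 / 10000 := by norm_num
  rw [e2]
  exact mul_le_mul_of_nonneg_left h (by norm_num)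

/-- `|Q(x)| ≤ Q(1)` -/
lemma Q_abs_le {x : ℝ} (hx : |x| ≤ 1) : |Q.eval x| ≤ Q.eval 1 := by
  have hu0 : 0 ≤ x ^ 2 := sq_nonneg x
  rcases le_total (5012 / 100000) (x ^ 2) with h | h
  · have := dom_outer hx h 0
    rwa [taylor_coeff_zero, taylor_coeff_zero] at this
  · refine le_trans ?_ Q_one_lower
    rw [Q_eval, prod_split', abs_mul, Finset.abs_prod, Z_zero]
    set u := x ^ 2 with hu
    have h1 : ∏ i ∈ Finset.range 60, |u - Z (i + 1)| ≤ (52506 / 100000 - u) ^ 60 := by
      have e : (52506 / 100000 - u) ^ 60 = ∏ _i ∈ Finset.range 60, (52506 / 100000 - u) := by simp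
      rw [e]
      apply Finset.prod_le_prod
      · intro i _; exact abs_nonneg _
      · intro i hi
        have h5 := Z_succ_hi (i := i) (Finset.mem_range.1 hi)
        have h6 := Z_succ_lo i
        rw [abs_le]
        constructor <;> linarith
    refine (mul_le_mul_of_nonneg_left h1 (abs_nonneg _)).trans ?_
    rcases le_total u (24 / 10000) with h2 | h2
    · rw [abs_of_nonpos (by linarith)]
      have h3 : -(u - 24 / 10000) ≤ 24 / 10000 := by linarith
      have h4 : (52506 / 100000 - u) ^ 60 ≤ (52506 / 100000) ^ 60 :=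
        pow_le_pow_left₀ (by linarith) (by linarith) 60
      calc -(u - 24 / 10000) * (52506 / 100000 - u) ^ 60
          ≤ 24 / 10000 * (52506 / 100000) ^ 60 :=
            mul_le_mul h3 h4 (pow_nonneg (by linarith) _) (by norm_num)
        _ ≤ _ := by norm_num
    · rw [abs_of_nonneg (by linarith)]
      have h3 := amgm (a := 60 * (u - 24 / 10000)) (b := 52506 / 100000 - u) (by linarith)
        (by linarith) 60
      have e : (60 * (u - 24 / 10000) + ((60:ℕ):ℝ) * (52506 / 100000 - u)) / (((60:ℕ):ℝ) + 1) =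
          60 * (52266 / 100000) / 61 := by
        push_cast
        ring
      rw [e] at h3
      have h4 : (60 * (52266 / 100000) / 61 : ℝ) ^ (60 + 1) ≤
          60 * (9976 / 10000 * (47494 / 100000) ^ 60) := by norm_num
      linarith

/-- **Condition (a)**. -/
theorem Q_deriv_le {x : ℝ} (hx : |x| ≤ 1) (k : ℕ) :
    |((derivative^[k]) Q).eval x| ≤ ((derivative^[k]) Q).eval 1 := by
  rcases k with _ | k
  · simpa using Q_abs_le hx
  · exact deriv_le_of_taylor (taylor_le hx k)

/-- the value at a complex point -/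
lemma Q_aeval (z : ℂ) : aeval z Q = ∏ i ∈ Finset.range 61, (z ^ 2 - (Z i : ℂ)) := by
  unfold Q
  rw [map_prod]
  simp

lemma normSq_at_iy (y A : ℝ) : Complex.normSq ((Complex.I * y) ^ 2 - (A : ℂ)) = (A + y ^ 2) ^ 2 := by
  have : ((Complex.I * y) ^ 2 - (A : ℂ)) = ((-(A + y ^ 2) : ℝ) : ℂ) := by
    rw [mul_pow, Complex.I_sq]; push_cast; ring
  rw [this, Complex.normSq_ofReal]
  ring

lemma normSq_at_one (y A : ℝ) : Complex.normSq ((1 + Complex.I * y) ^ 2 - (A : ℂ)) =
    (1 - A - y ^ 2) ^ 2 + 4 * y ^ 2 := by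
  have : ((1 + Complex.I * y) ^ 2 - (A : ℂ)) =
      ((1 - A - y ^ 2 : ℝ) : ℂ) + ((2 * y : ℝ) : ℂ) * Complex.I := by
    push_cast
    linear_combination (y:ℂ) ^ 2 * Complex.I_sq
  rw [this, Complex.normSq_add_mul_I]
  ring

/-- **The violation of (D)** at `x = 0`, `y² = 11/10000`. -/
theorem violation {y : ℝ} (hy : y ^ 2 = 11 / 10000) :
    ‖aeval (1 + Complex.I * y) Q‖ < ‖aeval (Complex.I * y) Q‖ := by
  apply lt_of_pow_lt_pow_left₀ 2 (norm_nonneg _)
  rw [← Complex.normSq_eq_norm_sq, ← Complex.normSq_eq_norm_sq, Q_aeval, Q_aeval, map_prod, map_prod]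
  simp only [normSq_at_iy, normSq_at_one, hy]
  rw [prod_split', prod_split', Z_zero]
  have h1 : ∏ i ∈ Finset.range 60, ((1 - Z (i + 1) - 11 / 10000) ^ 2 + 4 * (11 / 10000) : ℝ) ≤
      ((1 - 525 / 1000 - 11 / 10000) ^ 2 + 4 * (11 / 10000)) ^ 60 := by
    have e : ((1 - 525 / 1000 - 11 / 10000) ^ 2 + 4 * (11 / 10000) : ℝ) ^ 60 =
      ∏ _i ∈ Finset.range 60, ((1 - 525 / 1000 - 11 / 10000) ^ 2 + 4 * (11 / 10000) : ℝ) := by simp
    rw [e]
    apply Finset.prod_le_prod
    · intro i _; positivity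
    · intro i hi
      have h5 := Z_succ_hi (i := i) (Finset.mem_range.1 hi)
      have h6 := Z_succ_lo i
      gcongr
      · linarith
  have h2 : ((525 / 1000 + 11 / 10000) ^ 2 : ℝ) ^ 60 ≤
      ∏ i ∈ Finset.range 60, ((Z (i + 1) + 11 / 10000) ^ 2 : ℝ) := by
    have e : ((525 / 1000 + 11 / 10000) ^ 2 : ℝ) ^ 60 =
      ∏ _i ∈ Finset.range 60, ((525 / 1000 + 11 / 10000) ^ 2 : ℝ) := by simp
    rw [e]
    apply Finset.prod_le_prod
    · intro i _; positivity
    · intro i hi
      have h6 := Z_succ_lo i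
      gcongr
  calc _ ≤ ((1 - 24 / 10000 - 11 / 10000) ^ 2 + 4 * (11 / 10000) : ℝ) *
        ((1 - 525 / 1000 - 11 / 10000) ^ 2 + 4 * (11 / 10000)) ^ 60 :=
        mul_le_mul_of_nonneg_left h1 (by positivity)
    _ < (24 / 10000 + 11 / 10000) ^ 2 * ((525 / 1000 + 11 / 10000) ^ 2) ^ 60 := by norm_num
    _ ≤ _ := mul_le_mul_of_nonneg_left h2 (by positivity)

/-! ### The zeros -/

/-- the set of zeros -/
noncomputable def S : Finset ℝ :=
  (Finset.range 61).image (fun i => √(Z i)) ∪ (Finset.range 61).image (fun i => -√(Z i))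

lemma sqrt_pos' (i : ℕ) : 0 < √(Z i) := Real.sqrt_pos.2 (Z_pos i)

lemma sqrt_inj : Function.Injective (fun i => √(Z i)) := by
  intro i j h
  apply Z_inj
  have := congrArg (· ^ 2) h
  simpa [Real.sq_sqrt (Z_pos i).le, Real.sq_sqrt (Z_pos j).le] using this

lemma S_disj : Disjoint ((Finset.range 61).image (fun i => √(Z i)))
    ((Finset.range 61).image (fun i => -√(Z i))) := by
  rw [Finset.disjoint_left]
  intro a ha hb
  obtain ⟨i, _, rfl⟩ := Finset.mem_image.1 ha
  obtain ⟨j, _, hj⟩ := Finset.mem_image.1 hb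
  have h1 := sqrt_pos' i
  have h2 := sqrt_pos' j
  linarith

lemma Q_eq_prod : Q = ∏ s ∈ S, (X - C s) := by
  unfold S
  rw [Finset.prod_union S_disj, Finset.prod_image (fun i _ j _ h => sqrt_inj h),
    Finset.prod_image (fun i _ j _ h => sqrt_inj (neg_injective h)), ← Finset.prod_mul_distrib]
  unfold Q
  apply Finset.prod_congr rfl
  intro i _
  have : (C (Z i) : ℝ[X]) = C (√(Z i)) * C (√(Z i)) := by
    rw [← C_mul, Real.mul_self_sqrt (Z_pos i).le]
  rw [this, C_neg]
  ring

lemma S_mem_Icc {s : ℝ} (hs : s ∈ S) : s ∈ Set.Icc (-1 : ℝ) 1 := by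
  have key : ∀ i ∈ Finset.range 61, √(Z i) ≤ 1 := fun i hi => by
    rw [Real.sqrt_le_one]
    exact (Z_lt_one (Finset.mem_range.1 hi)).le
  rcases Finset.mem_union.1 hs with h | h
  · obtain ⟨i, hi, rfl⟩ := Finset.mem_image.1 h
    have := key i hi
    have := sqrt_pos' i
    constructor <;> linarith
  · obtain ⟨i, hi, rfl⟩ := Finset.mem_image.1 h
    have := key i hi
    have := sqrt_pos' i
    constructor <;> linarith

lemma S_neg_mem {s : ℝ} (hs : s ∈ S) : -s ∈ S := by
  rcases Finset.mem_union.1 hs with h | h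
  · obtain ⟨i, hi, rfl⟩ := Finset.mem_image.1 h
    exact Finset.mem_union_right _ (Finset.mem_image_of_mem (fun i => -√(Z i)) hi)
  · obtain ⟨i, hi, rfl⟩ := Finset.mem_image.1 h
    rw [neg_neg]
    exact Finset.mem_union_left _ (Finset.mem_image_of_mem (fun i => √(Z i)) hi)

lemma S_card : S.card = 122 := by
  unfold S
  rw [Finset.card_union_of_disjoint S_disj, Finset.card_image_of_injective _ sqrt_inj,
    Finset.card_image_of_injective (f := fun i => -√(Z i)) _ (neg_injective.comp sqrt_inj)]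
  simp

end Q73.PolyDom
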